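import Mathlib
import Pool.Agent.Helper620.CamMilOdd

set_option autoImplicit false

namespace Pool.Agent.Results.MP_fc0732_al.FamilyAllPrimes

/-- For every prime `p` (including `p = 2`) and every `n > 1` coprime to `p (p² - 1)` there is a
group `G` of order `p^(2n+2)` with centre of order `p²` that is a Camina group (the conjugacy
class of every `x` outside the derived subgroup `G' = commutator G` is the coset `xG'`) and a
Miller group (nonabelian with abelian automorphism group). -/
theorem result (p : ℕ) (hp : p.Prime) (n : ℕ) (hn : 1 < n)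
    (hco : Nat.Coprime n (p * (p ^ 2 - 1))) :
    ∃ (G : Type) (_ : Group G),
      Nat.card G = p ^ (2 * n + 2) ∧
      Nat.card (Subgroup.center G) = p ^ 2 ∧
      (∀ x : G, x ∉ commutator G → ∀ y : G, IsConj x y ↔ x⁻¹ * y ∈ commutator G) ∧
      (∃ a b : G, a * b ≠ b * a) ∧
      (∀ f g : MulAut G, f * g = g * f) := by
  obtain ⟨G, i, h1, h2, h3, h4, h5⟩ := Helper620.CM.all_main p hp n hn hco
  exact ⟨G, i, h1, h2, h3, h4, h5⟩

end Pool.Agent.Results.MP_fc0732_al.FamilyAllPrimes
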